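import Mathlib
import Pool.Agent.Lib.MP_041051_al.Counter

namespace Pool.Agent.Results.MP_041051_al.Counterexample

/-- There are a unital non-associative ring `R` and a map `f : R → ZMod 2` that preserves
the successor map `x ↦ 1 + x` and the multiplication but is not additive. -/
theorem result : ∃ (R : Type) (_ : NonAssocRing R) (f : R → ZMod 2),
    (∀ x, f (1 + x) = 1 + f x) ∧ (∀ x y, f (x * y) = f x * f y) ∧
      ∃ x y, f (x + y) ≠ f x + f y :=
  Pool.Agent.Lib.MP_041051_al.Counter.exists_nonadditive

end Pool.Agent.Results.MP_041051_al.Counterexample
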