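import Mathlib
import Pool.Agent.Lib.MP_041051_al.Defs
import Pool.Agent.Lib.MP_041051_al.Positive

namespace Pool.Agent.Results.MP_041051_al.PositiveFinite

open Pool.Agent.Lib.MP_041051_al (LeftStable)

universe u v

/-- Let `f : R → S` be a brachymorphism of unital non-associative rings and let `a : R`.
If `R` is finite, or if `a` and `1 + a` are left stable, then `f (a + z) = f a + f z`
for all `z`. -/
theorem result {R : Type u} {S : Type v} [NonAssocRing R] [NonAssocRing S] (f : R → S)
    (hsucc : ∀ x, f (1 + x) = 1 + f x) (hmul : ∀ x y, f (x * y) = f x * f y)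
    (a : R) (ha : Finite R ∨ (LeftStable a ∧ LeftStable (1 + a))) (z : R) :
    f (a + z) = f a + f z :=
  Pool.Agent.Lib.MP_041051_al.Positive.additive_at f hsucc hmul a ha z

end Pool.Agent.Results.MP_041051_al.PositiveFinite
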